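import Mathlib
import Pool.Agent.W231.R.Main

set_option autoImplicit false

/-!
# Vojta's conjecture with a multiplier ideal correction term: the degree of the exceptional set

`X = ℙ¹ × ℙ¹` over `ℚ` with affine coordinates `(x, y) = (x 0, x 1)`, `P = (1, 0)`,
`D = {x = 0} + {x = ∞} + {y = 1} + {y = ∞} + {E = 0}` with `E` a nonzero polynomial, and
`I = m_P ^ 2 * O(-D)`. If `D` has simple normal crossings and `P ∉ D` (for instance `E = 1`), the
multiplier ideal `I⁻` is trivial: on the blow-up of `P` the exceptional divisor has coefficient `2`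
in the pullback of `I` and coefficient `1` in the relative canonical divisor.
-/

namespace Pool.Agent.Results.MP_8865d3_nt.ExponentialDegree

open NumberField IsDedekindDomain

variable {L : Type} [Field L] [NumberField L]

/-- The local height of the point `c` of `ℙ¹` at the point `z ≠ c` of the affine line, for the
absolute value `a` of `L`. -/
noncomputable def lpt (a : L → ℝ) (c z : L) : ℝ := Real.log (max 1 (a z) / a (z - c))

/-- The local height of the point at infinity of `ℙ¹`. -/
noncomputable def linf (a : L → ℝ) (z : L) : ℝ := Real.log (max 1 (a z))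

/-- The local height of the closure in `ℙ¹ × ℙ¹` of the curve `E = 0`. -/
noncomputable def lcurve (a : L → ℝ) (E : MvPolynomial (Fin 2) ℤ) (x : Fin 2 → L) : ℝ :=
  Real.log (max 1 (a (x 0)) ^ E.degreeOf 0 * max 1 (a (x 1)) ^ E.degreeOf 1 /
    a (MvPolynomial.aeval x E))

/-- The local height of the ideal `I = m_P ^ 2 * O(-D)`: the local height of `m_P`, `P = (1, 0)`,
is the minimum of the local heights of `{x = 1}` and `{y = 0}`. -/
noncomputable def lI (a : L → ℝ) (E : MvPolynomial (Fin 2) ℤ) (x : Fin 2 → L) : ℝ :=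
  2 * min (lpt a 1 (x 0)) (lpt a 0 (x 1)) +
    (lpt a 0 (x 0) + linf a (x 0) + lpt a 1 (x 1) + linf a (x 1) + lcurve a E x)

/-- `∑_{v ∈ S} λ_I(x, v)`, with absolute normalisation, where `S` consists of the archimedean place
of `ℚ` and of the primes in `S`: the sum over all infinite places of `L` and over the primes of `L`
above the primes in `S`, divided by `[L : ℚ]`. -/
noncomputable def proximity (S : Finset ℕ) (E : MvPolynomial (Fin 2) ℤ) (x : Fin 2 → L) : ℝ :=
  ((∑ w : InfinitePlace L, w.mult * lI w E x) +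
    ∑ᶠ v ∈ {v : HeightOneSpectrum (𝓞 L) | ∃ p ∈ S, (p : 𝓞 L) ∈ v.asIdeal},
      lI (FinitePlace.mk v) E x) / Module.finrank ℚ L

/-- The absolute logarithmic height of an element of `L`. -/
noncomputable def height (z : L) : ℝ := Height.logHeight₁ z / Module.finrank ℚ L

/-- Let `S` contain the archimedean place and at least one prime, let `E` and `G` be nonzero
polynomials in two variables over `ℤ` and `ℚ`, and `r ≥ 1`. Suppose that the inequality
`h_K(x) + ∑_{v ∈ S} λ_I(x, v) ≤ ε h_A(x) + d(L) + C` with `h_K(x) = -2 h(x_0) - 2 h(x_1)`,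
`h_A(x) = h(x_0) + h(x_1)` and `d(L) = log |disc L| / [L : ℚ]` holds for all points `x` with
coordinates in a number field `L` of degree at most `r`, off the curves `x_0 = 0`, `x_0 = 1`,
`x_1 = 0`, `x_1 = 1`, `E = 0` and `G = 0`. Then
`∑_{j ≤ m} binom(k, j) ≤ deg_{x_1} G + deg_{x_1} E + 1` for all `k ≥ 1` and `m` with
`(m + 1) φ(k) ≤ r` and `(k + m) ε < 1`. For `m = k` the left side is `2 ^ k`. -/
theorem result (S : Finset ℕ) (hS : ∀ p ∈ S, p.Prime) (hS0 : S.Nonempty)
    (E : MvPolynomial (Fin 2) ℤ) (hE : E ≠ 0) (G : MvPolynomial (Fin 2) ℚ) (hG : G ≠ 0)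
    (r : ℕ) (ε C : ℝ)
    (hV : ∀ (L : Type) [Field L] [NumberField L], Module.finrank ℚ L ≤ r →
      ∀ x : Fin 2 → L, x 0 ≠ 0 → x 0 ≠ 1 → x 1 ≠ 0 → x 1 ≠ 1 → MvPolynomial.aeval x E ≠ 0 →
        MvPolynomial.aeval x G ≠ 0 →
        (-2 * height (x 0) - 2 * height (x 1)) + proximity S E x ≤
          ε * (height (x 0) + height (x 1)) + Real.log |(discr L : ℝ)| / Module.finrank ℚ L + C)
    (k m : ℕ) (hk : 1 ≤ k) (hr : (m + 1) * k.totient ≤ r) (hε : (k + m) * ε < 1) :
    ∑ j ∈ Finset.range (m + 1), k.choose j ≤ G.degreeOf 1 + E.degreeOf 1 + 1 := by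
  classical
  by_contra hlt
  push Not at hlt
  obtain ⟨p, hp⟩ := hS0
  obtain ⟨L, iF, iN, x, hfin, h0, h01, h1, h11, hE', hG', hU⟩ :=
    Pool.Agent.W231.R.main4 p (hS p hp) E hE G hG C hk hε hlt
  have hv := hV L (hfin.trans hr) x h0 h01 h1 h11 hE' hG'
  -- the primes above `S`
  have hset : {v : HeightOneSpectrum (𝓞 L) | ∃ p ∈ S, (p : 𝓞 L) ∈ v.asIdeal}.Finite := by
    have hsub : {v : HeightOneSpectrum (𝓞 L) | ∃ p ∈ S, (p : 𝓞 L) ∈ v.asIdeal} ⊆
        ⋃ p ∈ S, {v : HeightOneSpectrum (𝓞 L) | Pool.Agent.W231.V.fv v (p : L) ≠ 1} := by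
      rintro v ⟨p', hp', hv⟩
      simp only [Set.mem_iUnion]
      refine ⟨p', hp', ?_⟩
      have h2 := (FinitePlace.norm_lt_one_iff_mem L v (p' : 𝓞 L)).2 hv
      rw [map_natCast] at h2
      exact h2.ne
    exact (Set.Finite.biUnion S.finite_toSet fun p' hp' => Pool.Agent.W231.V.fv_support_finite
      (Nat.cast_ne_zero.2 (hS p' hp').ne_zero)).subset hsub
  have h2 := hU hset.toFinset (by
    intro v hv
    rw [Set.Finite.mem_toFinset] at hv
    have hv' : (p : 𝓞 L) ∉ v.asIdeal := fun h => hv ⟨p, hp, h⟩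
    have h3 := (FinitePlace.norm_eq_one_iff_notMem L v (p : 𝓞 L)).2 hv'
    rw [map_natCast] at h3
    exact h3)
  have hloc : ∀ f : AbsoluteValue L ℝ, lI f E x = Pool.Agent.W231.R.loc f E x := by
    intro f
    unfold lI lpt linf lcurve Pool.Agent.W231.R.loc
    rw [sub_zero, sub_zero]
    ring
  have hprox : proximity S E x * Module.finrank ℚ L =
      Pool.Agent.W231.M.Sm hset.toFinset (fun f => Pool.Agent.W231.R.loc f E x) := by
    have hN : (Module.finrank ℚ L : ℝ) ≠ 0 := by
      exact_mod_cast (Module.finrank_pos (R := ℚ) (M := L)).ne'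
    unfold proximity Pool.Agent.W231.M.Sm
    rw [div_mul_cancel₀ _ hN, finsum_mem_eq_finite_toFinset_sum _ hset]
    congr 1
    · exact Finset.sum_congr rfl fun w _ => congrArg (fun y : ℝ => (w.mult : ℝ) * y) (hloc w.1)
    · exact Finset.sum_congr rfl fun v _ => hloc (Pool.Agent.W231.V.fv v)
  rw [← hprox] at h2
  have hN : (0 : ℝ) < Module.finrank ℚ L := by exact_mod_cast Module.finrank_pos
  set N : ℝ := (Module.finrank ℚ L : ℝ) with hNd
  unfold height at hv
  rw [← hNd] at hv
  have h3 := mul_le_mul_of_nonneg_right hv hN.le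
  have e : ∀ y : ℝ, y / N * N = y := fun y => div_mul_cancel₀ _ hN.ne'
  have e0 := e (Height.logHeight₁ (x 0))
  have e1 := e (Height.logHeight₁ (x 1))
  have e2 := e (Real.log |(discr L : ℝ)|)
  have l1 : (-2 * (Height.logHeight₁ (x 0) / N) - 2 * (Height.logHeight₁ (x 1) / N) +
      proximity S E x) * N = -2 * Height.logHeight₁ (x 0) - 2 * Height.logHeight₁ (x 1) +
      proximity S E x * N := by
    linear_combination -2 * e0 - 2 * e1
  have l2 : (ε * (Height.logHeight₁ (x 0) / N + Height.logHeight₁ (x 1) / N) +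
      Real.log |(discr L : ℝ)| / N + C) * N = ε * (Height.logHeight₁ (x 0) +
      Height.logHeight₁ (x 1)) + Real.log |(discr L : ℝ)| + N * C := by
    linear_combination ε * e0 + ε * e1 + e2
  rw [l1, l2] at h3
  linarith

end Pool.Agent.Results.MP_8865d3_nt.ExponentialDegree
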